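import Pool.Agent.WAP.StmtsT
import Pool.Agent.Helper32_WAP.Add

/-!
# WAP, row ADN (helper53): sums of points near the origin are near the origin
-/

namespace Pool.Agent.WAP.H53

open Classical

/-- the estimate behind ADN, in terms of `u = 1/X1`, `v = 1/X2`, `T = X(P+Q)` -/
theorem est {F : Type} [NormedField F] (d u v T : F) (η M : ℝ) (hη0 : 0 < η) (hη1 : η ≤ 1)
    (hM : 0 ≤ M) (hdη : ‖d‖ * η ≤ 1 / 2) (hsm : 16 * η * (M ^ 2 + M + 1) < 1 / 4)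
    (hu : ‖u‖ ≤ η) (hv : ‖v‖ ≤ η) (hT : ‖T‖ ≤ M)
    (h : (v - u) ^ 2 * T ^ 2 - 2 * (1 - d ^ 2 * (u * v)) * (u + v) * T
      + (1 + d ^ 2 * (u * v)) ^ 2 = 0) : False := by
  have hd0 : 0 ≤ ‖d‖ := norm_nonneg d
  have hw : ‖d ^ 2 * (u * v)‖ ≤ 1 / 4 := by
    rw [norm_mul, norm_pow, norm_mul]
    have h1 : ‖d‖ ^ 2 * (‖u‖ * ‖v‖) = (‖d‖ * ‖u‖) * (‖d‖ * ‖v‖) := by ring
    have h2 : ‖d‖ * ‖u‖ ≤ 1 / 2 := le_trans (mul_le_mul_of_nonneg_left hu hd0) hdη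
    have h3 : ‖d‖ * ‖v‖ ≤ 1 / 2 := le_trans (mul_le_mul_of_nonneg_left hv hd0) hdη
    have h4 : 0 ≤ ‖d‖ * ‖v‖ := mul_nonneg hd0 (norm_nonneg v)
    rw [h1]
    calc (‖d‖ * ‖u‖) * (‖d‖ * ‖v‖) ≤ (1 / 2) * (1 / 2) :=
          mul_le_mul h2 h3 h4 (by norm_num)
      _ = 1 / 4 := by norm_num
  have h1 : ‖(1 : F)‖ = 1 := norm_one
  have h2 : ‖(2 : F)‖ ≤ 2 := by
    have : (2 : F) = 1 + 1 := by norm_num
    rw [this]
    refine le_trans (norm_add_le _ _) ?_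
    rw [h1]
    norm_num
  have hA : 3 / 4 ≤ ‖1 + d ^ 2 * (u * v)‖ := by
    have := norm_sub_norm_le (1 : F) (-(d ^ 2 * (u * v)))
    rw [norm_neg, h1, sub_neg_eq_add] at this
    linarith
  have hA2 : 9 / 16 ≤ ‖(1 + d ^ 2 * (u * v)) ^ 2‖ := by
    rw [norm_pow]
    nlinarith
  have hB : ‖(v - u) ^ 2 * T ^ 2‖ ≤ 4 * η * M ^ 2 := by
    rw [norm_mul, norm_pow, norm_pow]
    have h3 : ‖v - u‖ ≤ 2 * η := le_trans (norm_sub_le _ _) (by linarith)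
    have h4 : ‖v - u‖ ^ 2 ≤ (2 * η) ^ 2 := pow_le_pow_left₀ (norm_nonneg _) h3 2
    have h5 : (2 * η) ^ 2 ≤ 4 * η := by nlinarith
    have h6 : ‖T‖ ^ 2 ≤ M ^ 2 := pow_le_pow_left₀ (norm_nonneg _) hT 2
    exact mul_le_mul (le_trans h4 h5) h6 (by positivity) (by positivity)
  have hC : ‖2 * (1 - d ^ 2 * (u * v)) * (u + v) * T‖ ≤ 8 * η * M := by
    rw [norm_mul, norm_mul, norm_mul]
    have h3 : ‖1 - d ^ 2 * (u * v)‖ ≤ 2 := by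
      refine le_trans (norm_sub_le _ _) ?_
      rw [h1]
      linarith
    have h4 : ‖u + v‖ ≤ 2 * η := le_trans (norm_add_le _ _) (by linarith)
    have h5 : ‖(2 : F)‖ * ‖1 - d ^ 2 * (u * v)‖ ≤ 2 * 2 :=
      mul_le_mul h2 h3 (norm_nonneg _) (by norm_num)
    have h6 : ‖(2 : F)‖ * ‖1 - d ^ 2 * (u * v)‖ * ‖u + v‖ ≤ 2 * 2 * (2 * η) :=
      mul_le_mul h5 h4 (norm_nonneg _) (by norm_num)
    have h7 : ‖(2 : F)‖ * ‖1 - d ^ 2 * (u * v)‖ * ‖u + v‖ * ‖T‖ ≤ 2 * 2 * (2 * η) * M :=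
      mul_le_mul h6 hT (norm_nonneg _) (by positivity)
    refine le_trans h7 (le_of_eq ?_)
    ring
  have hD : (1 + d ^ 2 * (u * v)) ^ 2
      = 2 * (1 - d ^ 2 * (u * v)) * (u + v) * T - (v - u) ^ 2 * T ^ 2 := by
    linear_combination h
  have hE : ‖(1 + d ^ 2 * (u * v)) ^ 2‖ ≤ 8 * η * M + 4 * η * M ^ 2 := by
    rw [hD]
    exact le_trans (norm_sub_le _ _) (add_le_add hC hB)
  have hF : 8 * η * M + 4 * η * M ^ 2 ≤ 16 * η * (M ^ 2 + M + 1) := by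
    have h8 : 0 ≤ η * M := mul_nonneg hη0.le hM
    have h9 : 0 ≤ η * M ^ 2 := by positivity
    nlinarith
  linarith

theorem adn : AdnStmt := by
  intro F _ _ hF d hd N
  have h2 : (2 : F) ≠ 0 := by
    have := hF.1 2 (by decide)
    rwa [map_ofNat] at this
  have hdn : 0 < ‖d‖ := norm_pos_iff.mpr hd
  set N0 : ℝ := max N 0 with hN0
  have hN00 : 0 ≤ N0 := le_max_right _ _
  set M : ℝ := N0 * ‖d‖ with hMdef
  have hM : 0 ≤ M := mul_nonneg hN00 hdn.le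
  have hK : 0 < 128 * (M ^ 2 + M + 1) * (1 + ‖d‖) := by positivity
  set η : ℝ := 1 / (128 * (M ^ 2 + M + 1) * (1 + ‖d‖)) with hηdef
  have hη0 : 0 < η := by positivity
  have hηK : η * (128 * (M ^ 2 + M + 1) * (1 + ‖d‖)) = 1 := by
    rw [hηdef]
    field_simp
  have hP1 : 1 ≤ M ^ 2 + M + 1 := by nlinarith [sq_nonneg M]
  have hP2 : 1 ≤ 1 + ‖d‖ := by linarith
  have hη128 : η * (M ^ 2 + M + 1) ≤ 1 / 128 := by
    have h3 : 0 ≤ η * (M ^ 2 + M + 1) := by positivity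
    nlinarith
  have hη1 : η ≤ 1 := by nlinarith
  have hdη : ‖d‖ * η ≤ 1 / 2 := by
    have h3 : η * (1 + ‖d‖) ≤ 1 / 128 := by
      have h4 : 0 ≤ η * (1 + ‖d‖) := by positivity
      nlinarith
    nlinarith
  have hsm : 16 * η * (M ^ 2 + M + 1) < 1 / 4 := by nlinarith
  refine ⟨max N0 (1 / (η * ‖d‖)), ?_⟩
  intro p q hp hq
  rcases hp with hp | hp
  · subst hp
    rw [zero_add]
    rcases hq with hq | hq
    · exact Or.inl hq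
    · right
      exact lt_of_le_of_lt (le_trans (le_max_left N 0) (le_max_left _ _)) hq
  rcases hq with hq | hq
  · subst hq
    rw [add_zero]
    right
    exact lt_of_le_of_lt (le_trans (le_max_left N 0) (le_max_left _ _)) hp
  by_cases hs : p + q = 0
  · exact Or.inl hs
  right
  by_contra hcon
  have hT : ‖cX (p + q)‖ ≤ M := by
    have h3 : ‖cX (p + q) / d‖ ≤ N0 := le_trans (not_lt.mp hcon) (le_max_left N 0)
    rw [norm_div, div_le_iff₀ hdn] at h3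
    exact h3
  have key : ∀ r : Pt d, max N0 (1 / (η * ‖d‖)) < ‖cX r / d‖ → cX r ≠ 0 ∧ ‖(cX r)⁻¹‖ ≤ η := by
    intro r hr
    have h3 : 1 / (η * ‖d‖) < ‖cX r / d‖ := lt_of_le_of_lt (le_max_right _ _) hr
    rw [norm_div, lt_div_iff₀ hdn] at h3
    have h4 : 1 / (η * ‖d‖) * ‖d‖ = 1 / η := by
      field_simp
    rw [h4] at h3
    have h5 : 0 < ‖cX r‖ := lt_trans (by positivity) h3
    refine ⟨norm_pos_iff.mp h5, ?_⟩
    rw [norm_inv]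
    have h6 : ‖cX r‖⁻¹ ≤ (1 / η)⁻¹ := inv_anti₀ (by positivity) h3.le
    rwa [one_div, inv_inv] at h6
  obtain ⟨hX1, hu⟩ := key p hp
  obtain ⟨hX2, hv⟩ := key q hq
  have hp0 : p ≠ 0 := H32.ne_zero_of_cX hX1
  have hq0 : q ≠ 0 := H32.ne_zero_of_cX hX2
  have hkum := H32.kumEq h2 hp0 hq0 hs
  refine est d (cX p)⁻¹ (cX q)⁻¹ (cX (p + q)) η M hη0 hη1 hM hdη hsm hu hv hT ?_
  generalize cX (p + q) = T at *
  generalize cX p = X1 at *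
  generalize cX q = X2 at *
  have hprod : (X1 * X2) ^ 2 ≠ 0 := pow_ne_zero 2 (mul_ne_zero hX1 hX2)
  have e : ((X2⁻¹ - X1⁻¹) ^ 2 * T ^ 2 - 2 * (1 - d ^ 2 * (X1⁻¹ * X2⁻¹)) * (X1⁻¹ + X2⁻¹) * T
      + (1 + d ^ 2 * (X1⁻¹ * X2⁻¹)) ^ 2) * (X1 * X2) ^ 2
      = (X1 - X2) ^ 2 * T ^ 2 - 2 * (X1 * X2 - d ^ 2) * (X1 + X2) * T
        + (X1 * X2 + d ^ 2) ^ 2 := by
    field_simp
    ring
  rw [hkum] at e
  rcases mul_eq_zero.mp e with h | h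
  · exact h
  · exact absurd h hprod

end Pool.Agent.WAP.H53
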