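import Pool.Agent.WAP.StmtsP2

/-!
# WAP, row TYS (helper53): numbers which are not of type A
-/

namespace Pool.Agent.WAP.H53

open Pool.Agent.WAP Pool.Agent.WAP.P2 Classical

theorem tys : TysStmt := by
  intro F _ _ v hv x hx0 hx1 hxm hA
  rcases lt_trichotomy (v x) 0 with hneg | hzero | hpos
  · exact Or.inl hneg
  · have hxs : x - 1 ≠ 0 := sub_ne_zero.mpr hx1
    have hxp : x + 1 ≠ 0 := by
      intro h
      exact hxm (eq_neg_of_add_eq_zero_left h)
    have h1 : 1 ≤ v (x - 1) := hv.res x hx0 hzero hx1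
    have h2 : v (x - 1) ≠ 1 := fun h => hA ⟨hx0, hx1, hzero, h⟩
    rcases lt_or_ge 2 (v (x - 1)) with h3 | h3
    · right; right; left
      have h4 := hv.add_lt 2 (x - 1) hv.two_ne (Or.inr (by rw [hv.two]; exact h3))
      have h5 : (2 : F) + (x - 1) = x + 1 := by ring
      rw [h5, hv.two] at h4
      rw [hv.div _ _ h4.1 hxs, h4.2]
      omega
    · right; right; right
      have h4 : v (x - 1) = 2 := by omega
      have he : v ((x - 1) / 2) = 0 := by
        rw [hv.div _ _ hxs hv.two_ne, h4, hv.two]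
        omega
      have he0 : (x - 1) / 2 ≠ 0 := div_ne_zero hxs hv.two_ne
      have hen : -((x - 1) / 2) ≠ 0 := neg_ne_zero.mpr he0
      have hen1 : -((x - 1) / 2) ≠ 1 := by
        intro h
        apply hxm
        have h6 : (x - 1) / 2 * 2 = x - 1 := div_mul_cancel₀ _ hv.two_ne
        linear_combination -h6 - 2 * h
      have h7 := hv.res _ hen (by rw [hv.neg _ he0, he]) hen1
      have h8 : -((x - 1) / 2) - 1 = -((x + 1) / 2) := by
        have h9 : (2 : F) ≠ 0 := hv.two_ne
        field_simp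
        ring
      have h10 : (x + 1) / 2 ≠ 0 := div_ne_zero hxp hv.two_ne
      rw [h8, hv.neg _ h10, hv.div _ _ hxp hv.two_ne, hv.two] at h7
      have h11 : (1 : F) - x = -(x - 1) := by ring
      have h12 : (1 : F) + x = x + 1 := by ring
      rw [h11, h12, hv.div _ _ (neg_ne_zero.mpr hxs) hxp, hv.neg _ hxs, h4]
      omega
  · right; left
    rw [hv.div _ _ (neg_ne_zero.mpr one_ne_zero) hx0, hv.neg_one]
    omega

end Pool.Agent.WAP.H53
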